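import Pool.Agent.Helper381.TenBetti

namespace Pool.Agent.Results.MP_efd99a_gt.Disproof

open Pool.Agent.Helper381 Bundle Manifold
open scoped ContDiff

/-- There is a compact connected Riemannian symmetric space `M` (of dimension five) whose
two-number is at most `8` while its total mod `2` Betti number is at least `10`; so the two numbers
are different. -/
theorem result : ∃ (E : Type) (_ : NormedAddCommGroup E) (_ : NormedSpace ℝ E)
    (_ : FiniteDimensional ℝ E) (M : Type) (_ : MetricSpace M) (_ : CompactSpace M)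
    (_ : ConnectedSpace M) (_ : ChartedSpace E M) (_ : IsManifold 𝓘(ℝ, E) ∞ M)
    (_ : RiemannianBundle (fun x : M => TangentSpace 𝓘(ℝ, E) x))
    (_ : IsContMDiffRiemannianBundle 𝓘(ℝ, E) ∞ E (fun x : M => TangentSpace 𝓘(ℝ, E) x))
    (_ : IsRiemannianManifold 𝓘(ℝ, E) M),
    Module.finrank ℝ E = 5 ∧ IsSymmetric M ∧ twoNumber M ≤ 8 ∧ 10 ≤ totalBetti (ZMod 2) M ∧
      twoNumber M ≠ totalBetti (ZMod 2) M := by
  refine ⟨EuclideanSpace ℝ (Fin 5), inferInstance, inferInstance, inferInstance, Ten.d.X,
    Emb.instMetric Ten.d, inferInstance, inferInstance, inferInstance, inferInstance,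
    inferInstance, inferInstance, inferInstance, ?_, Ten.isSymmetric, Ten.twoNumber_le,
    Ten.ten_le, ?_⟩
  · exact finrank_euclideanSpace_fin
  · intro h
    have h1 := Ten.twoNumber_le
    have h2 := Ten.ten_le
    rw [← h] at h2
    have h3 : (10 : ℕ∞) ≤ 8 := h2.trans h1
    exact absurd h3 (by decide)

end Pool.Agent.Results.MP_efd99a_gt.Disproof
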