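import Pool.Agent.Helper381.Riem3
import Pool.Agent.Helper381.Main

namespace Pool.Agent.Results.MP_efd99a_gt.UpperBound

open Pool.Agent.Helper381 Bundle Manifold
open scoped ContDiff

/-- For every compact connected Riemannian symmetric space `M` the two-number is at most the total
mod `2` Betti number. -/
theorem result {E : Type*} [NormedAddCommGroup E] [NormedSpace ℝ E] [FiniteDimensional ℝ E]
    {M : Type*} [MetricSpace M] [CompactSpace M] [ConnectedSpace M]
    [ChartedSpace E M] [IsManifold 𝓘(ℝ, E) ∞ M]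
    [RiemannianBundle (fun x : M => TangentSpace 𝓘(ℝ, E) x)]
    [IsContMDiffRiemannianBundle 𝓘(ℝ, E) ∞ E (fun x : M => TangentSpace 𝓘(ℝ, E) x)]
    [IsRiemannianManifold 𝓘(ℝ, E) M] (_hsym : IsSymmetric M) :
    twoNumber M ≤ totalBetti (ZMod 2) M := by
  obtain ⟨R, G⟩ := riemannian_geo (E := E) (M := M)
  exact G.twoNumber_le

end Pool.Agent.Results.MP_efd99a_gt.UpperBound
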